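import Mathlib

/-!
# Valued fields as three-sorted structures, and standard fragments

* `ValField` : a (possibly trivially) valued field `(K, v)` with value group `G` (written additively,
  `∞ = ⊤`), residue field `k` and residue map `res : K → k`, which is `0` outside the valuation ring.
* `Pnx a b c` : prenex formulas with quantifier-free matrix of the three-sorted language of valued
  fields with a constant for an element of the field sort, having `a` free variables of the field
  sort, `b` of the residue-field sort and `c` of the value-group sort.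
* `RgPnx a` : prenex formulas with quantifier-free matrix of the language of rings.
-/

namespace Q209.AKE

/-- A valued field, presented by its three sorts: the field `K`, the residue field `k`, and the
ordered abelian value group `G`; `v x = ⊤` exactly for `x = 0`.  The residue map is a surjective
ring homomorphism on the valuation ring, with kernel the maximal ideal, and is `0` outside. -/
structure ValField where
  K : Type
  k : Type
  G : Type
  [fieldK : Field K]
  [fieldk : Field k]
  [groupG : AddCommGroup G]
  [orderG : LinearOrder G]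
  [ordG : IsOrderedAddMonoid G]
  v : K → WithTop G
  res : K → k
  v_top : ∀ x, v x = ⊤ ↔ x = 0
  v_mul : ∀ x y, v (x * y) = v x + v y
  v_add : ∀ x y, min (v x) (v y) ≤ v (x + y)
  v_surj : ∀ g : G, ∃ x, v x = g
  res_one : res 1 = 1
  res_add : ∀ x y, 0 ≤ v x → 0 ≤ v y → res (x + y) = res x + res y
  res_mul : ∀ x y, 0 ≤ v x → 0 ≤ v y → res (x * y) = res x * res y
  res_surj : ∀ a, ∃ x, 0 ≤ v x ∧ res x = a
  res_ker : ∀ x, 0 ≤ v x → (res x = 0 ↔ 0 < v x)
  res_out : ∀ x, v x < 0 → res x = 0

attribute [instance] ValField.fieldK ValField.fieldk ValField.groupG ValField.orderG ValField.ordG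

namespace ValField

/-- Henselian: every monic polynomial over the valuation ring with a simple root `a` modulo the
maximal ideal has a root congruent to `a`. -/
def Henselian (M : ValField) : Prop :=
  ∀ f : Polynomial M.K, f.Monic → (∀ i, 0 ≤ M.v (f.coeff i)) → ∀ a : M.K, 0 ≤ M.v a →
    0 < M.v (f.eval a) → M.v (f.derivative.eval a) = 0 →
      ∃ b : M.K, 0 ≤ M.v b ∧ f.eval b = 0 ∧ 0 < M.v (b - a)

/-- Nontrivially valued. -/
def NontrivVal (M : ValField) : Prop := ∃ g : M.G, g ≠ 0

/-- Equicharacteristic: the field and the residue field have the same characteristic. -/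
def Equichar (M : ValField) : Prop := ringChar M.K = ringChar M.k

/-- Equicharacteristic zero. -/
def EquicharZero (M : ValField) : Prop := ringChar M.K = 0 ∧ ringChar M.k = 0

/-- `p` is an element of smallest positive value. -/
def IsUniformizer (M : ValField) (p : M.K) : Prop :=
  0 < M.v p ∧ ∀ x, 0 < M.v x → M.v p ≤ M.v x

end ValField

/-- The ordered abelian group `G` is a `ℤ`-group: it has a least positive element `e`, and every
element is `n • h + i • e` with `0 ≤ i < n`, for every `n ≥ 1` (the usual axioms for elementary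
equivalence with `(ℤ, +, <)`). -/
def IsZGroup (G : Type) [AddCommGroup G] [LinearOrder G] : Prop :=
  ∃ e : G, 0 < e ∧ (∀ g : G, 0 < g → e ≤ g) ∧
    ∀ n : ℕ, 1 ≤ n → ∀ g : G, ∃ h : G, ∃ i : ℕ, i < n ∧ g = n • h + i • e

/-! ### The three-sorted language -/

/-- Terms of the field sort; `pi` is the constant `ϖ`. -/
inductive FTm (a : ℕ) : Type
  | var : Fin a → FTm a
  | zero : FTm a
  | one : FTm a
  | pi : FTm a
  | neg : FTm a → FTm a
  | add : FTm a → FTm a → FTm a
  | mul : FTm a → FTm a → FTm a

/-- Terms of the residue-field sort. -/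
inductive RTm (a b : ℕ) : Type
  | var : Fin b → RTm a b
  | zero : RTm a b
  | one : RTm a b
  | neg : RTm a b → RTm a b
  | add : RTm a b → RTm a b → RTm a b
  | mul : RTm a b → RTm a b → RTm a b
  | res : FTm a → RTm a b

/-- Terms of the value-group sort. -/
inductive GTm (a c : ℕ) : Type
  | var : Fin c → GTm a c
  | zero : GTm a c
  | infty : GTm a c
  | neg : GTm a c → GTm a c
  | add : GTm a c → GTm a c → GTm a c
  | val : FTm a → GTm a c

/-- Quantifier-free formulas. -/
inductive QFm (a b c : ℕ) : Type
  | eqF : FTm a → FTm a → QFm a b c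
  | eqR : RTm a b → RTm a b → QFm a b c
  | eqG : GTm a c → GTm a c → QFm a b c
  | ltG : GTm a c → GTm a c → QFm a b c
  | not : QFm a b c → QFm a b c
  | and : QFm a b c → QFm a b c → QFm a b c

/-- Prenex formulas: a quantifier prefix over the three sorts, then a quantifier-free matrix. -/
inductive Pnx : ℕ → ℕ → ℕ → Type
  | qf {a b c : ℕ} : QFm a b c → Pnx a b c
  | exF {a b c : ℕ} : Pnx (a + 1) b c → Pnx a b c
  | exR {a b c : ℕ} : Pnx a (b + 1) c → Pnx a b c
  | exG {a b c : ℕ} : Pnx a b (c + 1) → Pnx a b c
  | allF {a b c : ℕ} : Pnx (a + 1) b c → Pnx a b c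
  | allR {a b c : ℕ} : Pnx a (b + 1) c → Pnx a b c
  | allG {a b c : ℕ} : Pnx a b (c + 1) → Pnx a b c

/-- Negation on `G ∪ {∞}`, with `-∞ = ∞`. -/
def negTop {G : Type} [Neg G] : WithTop G → WithTop G
  | none => ⊤
  | some g => ((-g : G) : WithTop G)

variable (M : ValField) (p : M.K)

def FTm.eval {a : ℕ} (x : Fin a → M.K) : FTm a → M.K
  | .var i => x i
  | .zero => 0
  | .one => 1
  | .pi => p
  | .neg s => - s.eval x
  | .add s t => s.eval x + t.eval x
  | .mul s t => s.eval x * t.eval x

def RTm.eval {a b : ℕ} (x : Fin a → M.K) (y : Fin b → M.k) : RTm a b → M.k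
  | .var i => y i
  | .zero => 0
  | .one => 1
  | .neg s => - s.eval x y
  | .add s t => s.eval x y + t.eval x y
  | .mul s t => s.eval x y * t.eval x y
  | .res s => M.res (s.eval M p x)

def GTm.eval {a c : ℕ} (x : Fin a → M.K) (z : Fin c → WithTop M.G) : GTm a c → WithTop M.G
  | .var i => z i
  | .zero => 0
  | .infty => ⊤
  | .neg s => negTop (s.eval x z)
  | .add s t => s.eval x z + t.eval x z
  | .val s => M.v (s.eval M p x)

def QFm.Holds {a b c : ℕ} (x : Fin a → M.K) (y : Fin b → M.k) (z : Fin c → WithTop M.G) :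
    QFm a b c → Prop
  | .eqF s t => s.eval M p x = t.eval M p x
  | .eqR s t => s.eval M p x y = t.eval M p x y
  | .eqG s t => s.eval M p x z = t.eval M p x z
  | .ltG s t => s.eval M p x z < t.eval M p x z
  | .not f => ¬ f.Holds x y z
  | .and f g => f.Holds x y z ∧ g.Holds x y z

/-- Truth of a prenex formula in `(M, p)` under an assignment; the new variable of a quantifier is
variable number `0` of its sort. -/
def Pnx.Holds : {a b c : ℕ} → Pnx a b c → (Fin a → M.K) → (Fin b → M.k) →
    (Fin c → WithTop M.G) → Prop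
  | _, _, _, .qf f, x, y, z => f.Holds M p x y z
  | _, _, _, .exF f, x, y, z => ∃ u : M.K, f.Holds (Fin.cons u x) y z
  | _, _, _, .exR f, x, y, z => ∃ u : M.k, f.Holds x (Fin.cons u y) z
  | _, _, _, .exG f, x, y, z => ∃ u : WithTop M.G, f.Holds x y (Fin.cons u z)
  | _, _, _, .allF f, x, y, z => ∀ u : M.K, f.Holds (Fin.cons u x) y z
  | _, _, _, .allR f, x, y, z => ∀ u : M.k, f.Holds x (Fin.cons u y) z
  | _, _, _, .allG f, x, y, z => ∀ u : WithTop M.G, f.Holds x y (Fin.cons u z)

/-- The prefix of the formula has the block pattern given by the list; `true` is a block of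
existential quantifiers (of any sorts), `false` a block of universal ones.  Blocks may be empty. -/
inductive HasPattern : {a b c : ℕ} → List Bool → Pnx a b c → Prop
  | qf {a b c : ℕ} (l : List Bool) (f : QFm a b c) : HasPattern l (.qf f)
  | next {a b c : ℕ} (q : Bool) (l : List Bool) (f : Pnx a b c) :
      HasPattern l f → HasPattern (q :: l) f
  | exF {a b c : ℕ} (l : List Bool) (f : Pnx (a + 1) b c) :
      HasPattern (true :: l) f → HasPattern (true :: l) (.exF f)
  | exR {a b c : ℕ} (l : List Bool) (f : Pnx a (b + 1) c) :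
      HasPattern (true :: l) f → HasPattern (true :: l) (.exR f)
  | exG {a b c : ℕ} (l : List Bool) (f : Pnx a b (c + 1)) :
      HasPattern (true :: l) f → HasPattern (true :: l) (.exG f)
  | allF {a b c : ℕ} (l : List Bool) (f : Pnx (a + 1) b c) :
      HasPattern (false :: l) f → HasPattern (false :: l) (.allF f)
  | allR {a b c : ℕ} (l : List Bool) (f : Pnx a (b + 1) c) :
      HasPattern (false :: l) f → HasPattern (false :: l) (.allR f)
  | allG {a b c : ℕ} (l : List Bool) (f : Pnx a b (c + 1)) :
      HasPattern (false :: l) f → HasPattern (false :: l) (.allG f)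

/-- The pattern of the `n`-th standard fragment: `n` alternating blocks, the last one existential:
`∃`, `∀∃`, `∃∀∃`, ... -/
def stdPattern : ℕ → List Bool
  | 0 => []
  | n + 1 => (n % 2 == 0) :: stdPattern n

/-- The sentences of the `n`-th standard fragment that hold in `(M, p)`. -/
def Th (n : ℕ) : Set (Pnx 0 0 0) :=
  {f | HasPattern (stdPattern n) f ∧ f.Holds M p Fin.elim0 Fin.elim0 Fin.elim0}

/-! ### The language of rings -/

inductive RgTm (a : ℕ) : Type
  | var : Fin a → RgTm a
  | zero : RgTm a
  | one : RgTm a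
  | neg : RgTm a → RgTm a
  | add : RgTm a → RgTm a → RgTm a
  | mul : RgTm a → RgTm a → RgTm a

inductive RgQF (a : ℕ) : Type
  | eq : RgTm a → RgTm a → RgQF a
  | not : RgQF a → RgQF a
  | and : RgQF a → RgQF a → RgQF a

inductive RgPnx : ℕ → Type
  | qf {a : ℕ} : RgQF a → RgPnx a
  | ex {a : ℕ} : RgPnx (a + 1) → RgPnx a
  | all {a : ℕ} : RgPnx (a + 1) → RgPnx a

section Rings

variable (F : Type) [Field F]

def RgTm.eval {a : ℕ} (x : Fin a → F) : RgTm a → F
  | .var i => x i
  | .zero => 0
  | .one => 1
  | .neg s => - s.eval x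
  | .add s t => s.eval x + t.eval x
  | .mul s t => s.eval x * t.eval x

def RgQF.Holds {a : ℕ} (x : Fin a → F) : RgQF a → Prop
  | .eq s t => s.eval F x = t.eval F x
  | .not f => ¬ f.Holds x
  | .and f g => f.Holds x ∧ g.Holds x

def RgPnx.Holds : {a : ℕ} → RgPnx a → (Fin a → F) → Prop
  | _, .qf f, x => f.Holds F x
  | _, .ex f, x => ∃ u : F, f.Holds (Fin.cons u x)
  | _, .all f, x => ∀ u : F, f.Holds (Fin.cons u x)

/-- Block patterns of prenex formulas of the language of rings. -/
inductive RgHasPattern : {a : ℕ} → List Bool → RgPnx a → Prop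
  | qf {a : ℕ} (l : List Bool) (f : RgQF a) : RgHasPattern l (.qf f)
  | next {a : ℕ} (q : Bool) (l : List Bool) (f : RgPnx a) :
      RgHasPattern l f → RgHasPattern (q :: l) f
  | ex {a : ℕ} (l : List Bool) (f : RgPnx (a + 1)) :
      RgHasPattern (true :: l) f → RgHasPattern (true :: l) (.ex f)
  | all {a : ℕ} (l : List Bool) (f : RgPnx (a + 1)) :
      RgHasPattern (false :: l) f → RgHasPattern (false :: l) (.all f)

/-- The ring sentences of the `n`-th standard fragment that hold in the field `F`. -/
def RgTh (n : ℕ) : Set (RgPnx 0) :=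
  {f | RgHasPattern (stdPattern n) f ∧ f.Holds F Fin.elim0}

end Rings

/-- The statement asked about, for the `n`-th standard fragment. -/
def Question (n : ℕ) : Prop :=
  ∀ (M : ValField) (p : M.K) (N : ValField) (q : N.K),
    M.Equichar → M.Henselian → M.NontrivVal → M.IsUniformizer p →
    N.EquicharZero → N.Henselian → N.NontrivVal → IsZGroup N.G → N.IsUniformizer q →
    RgTh M.k n ⊆ RgTh N.k n → Th M p n ⊆ Th N q n

end Q209.AKE
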