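import Mathlib
import Pool.Agent.Q209.AKE.Defs

/-! # Laurent series over a valued field, with the composite valuation -/

namespace Q209.AKE

open HahnSeries

section Gen

variable (V : ValField)

theorem ValField.v_zero : V.v 0 = ⊤ := (V.v_top 0).2 rfl

theorem ValField.v_one : V.v 1 = 0 := by
  have h1 : V.v 1 ≠ ⊤ := fun h => one_ne_zero ((V.v_top 1).1 h)
  have h2 : V.v 1 = V.v 1 + V.v 1 := by
    conv_lhs => rw [← mul_one (1 : V.K)]
    exact V.v_mul 1 1
  lift V.v 1 to V.G using h1 with g hg
  rw [← WithTop.coe_add, WithTop.coe_inj] at h2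
  have : g = 0 := by simpa using h2
  rw [this]; rfl

theorem ValField.v_neg_one : V.v (-1) = 0 := by
  have h1 : V.v (-1) ≠ ⊤ := fun h => (neg_ne_zero.2 one_ne_zero) ((V.v_top (-1)).1 h)
  have h2 : V.v (-1) + V.v (-1) = 0 := by
    rw [← V.v_mul, neg_mul_neg, one_mul, V.v_one]
  lift V.v (-1) to V.G using h1 with g hg
  rw [← WithTop.coe_add, ← WithTop.coe_zero, WithTop.coe_inj] at h2
  have h3 : g = 0 := by
    rcases lt_trichotomy g 0 with h | h | h
    · exact absurd h2 (ne_of_lt (add_neg h h))
    · exact h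
    · exact absurd h2 (ne_of_gt (add_pos h h))
  rw [h3]; rfl

theorem ValField.v_neg (x : V.K) : V.v (-x) = V.v x := by
  rw [← neg_one_mul, V.v_mul, V.v_neg_one, zero_add]

theorem ValField.v_add' {c : WithTop V.G} {x y : V.K} (hx : c ≤ V.v x) (hy : c ≤ V.v y) :
    c ≤ V.v (x + y) := le_trans (le_min hx hy) (V.v_add x y)

theorem ValField.v_add_lt {c : WithTop V.G} {x y : V.K} (hx : c < V.v x) (hy : c < V.v y) :
    c < V.v (x + y) := lt_of_lt_of_le (lt_min hx hy) (V.v_add x y)

theorem ValField.v_sub_lt {c : WithTop V.G} {x y : V.K} (hx : c < V.v x) (hy : c < V.v y) :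
    c < V.v (x - y) := by
  rw [sub_eq_add_neg]; exact V.v_add_lt hx (by rwa [V.v_neg])

theorem ValField.v_mul_nonneg {x y : V.K} (hx : 0 ≤ V.v x) (hy : 0 ≤ V.v y) :
    0 ≤ V.v (x * y) := by
  rw [V.v_mul]; exact add_nonneg hx hy

theorem ValField.v_mul_pos {x y : V.K} (hx : 0 < V.v x) (hy : 0 ≤ V.v y) :
    0 < V.v (x * y) := by
  rw [V.v_mul]
  exact lt_of_lt_of_le hx (le_add_of_nonneg_right hy)

theorem ValField.v_pow_nonneg {x : V.K} (hx : 0 ≤ V.v x) (n : ℕ) : 0 ≤ V.v (x ^ n) := by
  induction n with
  | zero => rw [pow_zero, V.v_one]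
  | succ n ih => rw [pow_succ]; exact V.v_mul_nonneg ih hx

theorem ValField.v_pow_sub {x y : V.K} (hx : 0 ≤ V.v x) (hy : 0 ≤ V.v y)
    (h : 0 < V.v (x - y)) (n : ℕ) : 0 < V.v (x ^ n - y ^ n) := by
  induction n with
  | zero => simp [V.v_zero]
  | succ n ih =>
    have : x ^ (n + 1) - y ^ (n + 1) = (x ^ n - y ^ n) * x + (x - y) * y ^ n := by ring
    rw [this]
    exact V.v_add_lt (V.v_mul_pos ih hx) (V.v_mul_pos h (V.v_pow_nonneg hy n))

theorem ValField.v_sum_lt {c : WithTop V.G} (hc : c < ⊤) (s : Finset ℕ) (f : ℕ → V.K)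
    (h : ∀ i ∈ s, c < V.v (f i)) : c < V.v (∑ i ∈ s, f i) := by
  classical
  induction s using Finset.induction_on with
  | empty => simpa [V.v_zero] using hc
  | insert a s ha ih =>
    rw [Finset.sum_insert ha]
    exact V.v_add_lt (h a (Finset.mem_insert_self _ _))
      (ih fun i hi => h i (Finset.mem_insert_of_mem hi))

theorem ValField.v_eval_sub (f : Polynomial V.K) (hf : ∀ i, 0 ≤ V.v (f.coeff i)) {x y : V.K}
    (hx : 0 ≤ V.v x) (hy : 0 ≤ V.v y) (h : 0 < V.v (x - y)) :
    0 < V.v (f.eval x - f.eval y) := by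
  rw [Polynomial.eval_eq_sum_range, Polynomial.eval_eq_sum_range, ← Finset.sum_sub_distrib]
  refine V.v_sum_lt (WithTop.coe_lt_top 0) _ _ fun i _ => ?_
  rw [← mul_sub, mul_comm]
  exact V.v_mul_pos (V.v_pow_sub hx hy h i) (hf i)

theorem ValField.v_natCast (n : ℕ) : 0 ≤ V.v (n : V.K) := by
  induction n with
  | zero => simp [V.v_zero]
  | succ n ih =>
    rw [Nat.cast_succ]
    exact V.v_add' ih (le_of_eq V.v_one.symm)

theorem ValField.v_coeff_derivative (f : Polynomial V.K) (hf : ∀ i, 0 ≤ V.v (f.coeff i)) (i : ℕ) :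
    0 ≤ V.v (f.derivative.coeff i) := by
  rw [Polynomial.coeff_derivative]
  refine V.v_mul_nonneg (hf _) ?_
  have := V.v_natCast (i + 1)
  rwa [Nat.cast_succ] at this

end Gen

/-- The field with the trivial valuation. -/
noncomputable def Triv (k : Type) [Field k] : ValField := by
  classical
  exact
  { K := k
    k := k
    G := PUnit
    v := fun x => if x = 0 then ⊤ else ((PUnit.unit : PUnit) : WithTop PUnit)
    res := id
    v_top := by
      intro x
      by_cases h : x = 0 <;> simp [h]
    v_mul := by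
      intro x y
      by_cases hx : x = 0
      · simp [hx]
      · by_cases hy : y = 0
        · simp [hy]
        · simp only [mul_eq_zero, hx, hy, or_self, if_false]
          rfl
    v_add := by
      intro x y
      by_cases hx : x = 0
      · simp [hx]
      · by_cases hxy : x + y = 0
        · simp [hxy]
        · simp only [hx, hxy, if_false]
          exact min_le_left _ _
    v_surj := by
      intro g
      exact ⟨1, by simp⟩
    res_one := rfl
    res_add := fun x y _ _ => rfl
    res_mul := fun x y _ _ => rfl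
    res_surj := by
      intro a
      refine ⟨a, ?_, rfl⟩
      by_cases ha : a = 0
      · simp [ha]
      · simp only [ha, if_false]
        exact le_refl _
    res_ker := by
      intro x _
      by_cases hx : x = 0
      · simp only [hx, id, if_true, true_iff]
        exact WithTop.coe_lt_top _
      · simp only [hx, id, if_false, false_iff]
        exact lt_irrefl _
    res_out := by
      intro x hx
      by_cases h : x = 0
      · exact h
      · simp only [h, if_false] at hx
        exact absurd hx (lt_irrefl _) }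

theorem Triv_K (k : Type) [Field k] : (Triv k).K = k := rfl

end Q209.AKE
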