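import Mathlib
import Pool.Agent.Q209.AKE.Lau

/-! # Laurent series over a valued field, with the composite valuation -/

namespace Q209.AKE

open HahnSeries

variable (V : ValField)

/-- The composite value of a Laurent series: the pair (order, value of the leading coefficient). -/
noncomputable def lv (x : LaurentSeries V.K) : WithTop (ℤ ×ₗ V.G) :=
  (V.v x.leadingCoeff).map (fun g => toLex (x.order, g))

theorem lv_zero : lv V 0 = ⊤ := by
  unfold lv
  rw [leadingCoeff_zero, V.v_zero, WithTop.map_top]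

theorem lv_top (x : LaurentSeries V.K) : lv V x = ⊤ ↔ x = 0 := by
  constructor
  · intro h
    unfold lv at h
    rw [WithTop.map_eq_top_iff, V.v_top, leadingCoeff_eq_zero] at h
    exact h
  · rintro rfl
    exact lv_zero V

theorem lv_of_ne {x : LaurentSeries V.K} (hx : x ≠ 0) :
    ∃ h : V.G, V.v (x.coeff x.order) = (h : WithTop V.G) ∧
      lv V x = ((toLex (x.order, h) : ℤ ×ₗ V.G) : WithTop (ℤ ×ₗ V.G)) := by
  have h1 : V.v (x.coeff x.order) ≠ ⊤ := by
    rw [Ne, V.v_top, coeff_order_eq_zero]; exact hx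
  obtain ⟨h, hh⟩ := WithTop.ne_top_iff_exists.1 h1
  refine ⟨h, hh.symm, ?_⟩
  unfold lv
  rw [leadingCoeff_eq, ← hh, WithTop.map_coe]

theorem le_lv_iff (n : ℤ) (g : V.G) (x : LaurentSeries V.K) :
    ((toLex (n, g) : ℤ ×ₗ V.G) : WithTop (ℤ ×ₗ V.G)) ≤ lv V x ↔
      (∀ i < n, x.coeff i = 0) ∧ (g : WithTop V.G) ≤ V.v (x.coeff n) := by
  by_cases hx : x = 0
  · subst hx
    simp [lv_zero, V.v_zero]
  · obtain ⟨h, hh, hl⟩ := lv_of_ne V hx
    rw [hl, WithTop.coe_le_coe, Prod.Lex.toLex_le_toLex]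
    constructor
    · rintro (h1 | ⟨h1, h2⟩)
      · refine ⟨fun i hi => coeff_eq_zero_of_lt_order (lt_trans hi h1), ?_⟩
        rw [coeff_eq_zero_of_lt_order h1, V.v_zero]
        exact le_top
      · simp only at h1 h2
        subst h1
        refine ⟨fun i hi => coeff_eq_zero_of_lt_order hi, ?_⟩
        rw [hh]
        exact WithTop.coe_le_coe.2 h2
    · rintro ⟨h1, h2⟩
      rcases lt_trichotomy n x.order with h3 | h3 | h3
      · exact Or.inl h3
      · refine Or.inr ⟨h3, ?_⟩
        subst h3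
        rw [hh] at h2
        exact WithTop.coe_le_coe.1 h2
      · exact absurd (coeff_order_eq_zero.1 (h1 _ h3)) hx

theorem lt_lv_iff (n : ℤ) (g : V.G) (x : LaurentSeries V.K) :
    ((toLex (n, g) : ℤ ×ₗ V.G) : WithTop (ℤ ×ₗ V.G)) < lv V x ↔
      (∀ i < n, x.coeff i = 0) ∧ (g : WithTop V.G) < V.v (x.coeff n) := by
  by_cases hx : x = 0
  · subst hx
    simp [lv_zero, V.v_zero]
  · obtain ⟨h, hh, hl⟩ := lv_of_ne V hx
    rw [hl, WithTop.coe_lt_coe, Prod.Lex.toLex_lt_toLex]
    constructor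
    · rintro (h1 | ⟨h1, h2⟩)
      · refine ⟨fun i hi => coeff_eq_zero_of_lt_order (lt_trans hi h1), ?_⟩
        rw [coeff_eq_zero_of_lt_order h1, V.v_zero]
        exact WithTop.coe_lt_top _
      · simp only at h1 h2
        subst h1
        refine ⟨fun i hi => coeff_eq_zero_of_lt_order hi, ?_⟩
        rw [hh]
        exact WithTop.coe_lt_coe.2 h2
    · rintro ⟨h1, h2⟩
      rcases lt_trichotomy n x.order with h3 | h3 | h3
      · exact Or.inl h3
      · refine Or.inr ⟨h3, ?_⟩
        subst h3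
        rw [hh] at h2
        exact WithTop.coe_lt_coe.1 h2
      · exact absurd (coeff_order_eq_zero.1 (h1 _ h3)) hx

theorem lv_nonneg_iff (x : LaurentSeries V.K) :
    0 ≤ lv V x ↔ (∀ i < 0, x.coeff i = 0) ∧ 0 ≤ V.v (x.coeff 0) := le_lv_iff V 0 0 x

theorem lv_pos_iff (x : LaurentSeries V.K) :
    0 < lv V x ↔ (∀ i < 0, x.coeff i = 0) ∧ 0 < V.v (x.coeff 0) := lt_lv_iff V 0 0 x

theorem lv_add (x y : LaurentSeries V.K) : min (lv V x) (lv V y) ≤ lv V (x + y) := by
  by_cases hm : min (lv V x) (lv V y) = ⊤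
  · rw [min_eq_top, lv_top, lv_top] at hm
    rw [hm.1, hm.2, add_zero, lv_zero]
    exact le_top
  · obtain ⟨c, hc⟩ := WithTop.ne_top_iff_exists.1 hm
    have h1 : (c : WithTop (ℤ ×ₗ V.G)) ≤ lv V x := hc.le.trans (min_le_left _ _)
    have h2 : (c : WithTop (ℤ ×ₗ V.G)) ≤ lv V y := hc.le.trans (min_le_right _ _)
    rw [← hc]
    obtain ⟨n, g, rfl⟩ : ∃ n g, c = toLex (n, g) := ⟨(ofLex c).1, (ofLex c).2, rfl⟩
    rw [le_lv_iff] at h1 h2 ⊢
    refine ⟨fun i hi => ?_, ?_⟩
    · rw [coeff_add, h1.1 i hi, h2.1 i hi, add_zero]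
    · rw [coeff_add]
      exact V.v_add' h1.2 h2.2

theorem lv_mul (x y : LaurentSeries V.K) : lv V (x * y) = lv V x + lv V y := by
  by_cases hx : x = 0
  · rw [hx, zero_mul, lv_zero, top_add]
  by_cases hy : y = 0
  · rw [hy, mul_zero, lv_zero, add_top]
  obtain ⟨g, hg, hgx⟩ := lv_of_ne V hx
  obtain ⟨h, hh, hhy⟩ := lv_of_ne V hy
  have hne : x.leadingCoeff * y.leadingCoeff ≠ 0 :=
    mul_ne_zero (leadingCoeff_ne_zero.2 hx) (leadingCoeff_ne_zero.2 hy)
  have ho : (x * y).order = x.order + y.order := order_mul_of_ne_zero hne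
  have hl : (x * y).leadingCoeff = x.leadingCoeff * y.leadingCoeff := leadingCoeff_mul x y
  rw [hgx, hhy, ← WithTop.coe_add]
  unfold lv
  rw [ho, hl, V.v_mul, leadingCoeff_eq, leadingCoeff_eq, hg, hh, ← WithTop.coe_add,
    WithTop.map_coe]
  rfl

/-- A Laurent series without negative coefficients is a power series. -/
theorem exists_ofPS {F : Type} [Field F] (x : LaurentSeries F) (hx : ∀ i < 0, x.coeff i = 0) :
    ∃ X : PowerSeries F, ofPowerSeries ℤ F X = x := by
  refine ⟨PowerSeries.mk fun n => x.coeff n, ?_⟩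
  ext i
  rw [PowerSeries.coeff_coe]
  split_ifs with hi
  · exact (hx i hi).symm
  · rw [PowerSeries.coeff_mk]
    congr 1
    have := Int.natAbs_of_nonneg (not_lt.1 hi)
    exact this

theorem coeff_zero_ofPS {F : Type} [Field F] (X : PowerSeries F) :
    (ofPowerSeries ℤ F X).coeff 0 = PowerSeries.constantCoeff X := by
  rw [PowerSeries.coeff_coe]
  simp

theorem coeff_neg_ofPS {F : Type} [Field F] (X : PowerSeries F) (i : ℤ) (hi : i < 0) :
    (ofPowerSeries ℤ F X).coeff i = 0 := by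
  rw [PowerSeries.coeff_coe, if_pos hi]

theorem coeff_zero_mul' {F : Type} [Field F] (x y : LaurentSeries F)
    (hx : ∀ i < 0, x.coeff i = 0) (hy : ∀ i < 0, y.coeff i = 0) :
    (x * y).coeff 0 = x.coeff 0 * y.coeff 0 := by
  obtain ⟨X, rfl⟩ := exists_ofPS x hx
  obtain ⟨Y, rfl⟩ := exists_ofPS y hy
  rw [← map_mul, coeff_zero_ofPS, coeff_zero_ofPS, coeff_zero_ofPS, map_mul]

open Classical in
/-- Laurent series over a valued field, with the composite valuation. -/
noncomputable def Lau : ValField :=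
  { K := LaurentSeries V.K
    k := V.k
    G := ℤ ×ₗ V.G
    v := lv V
    res := fun x => if 0 ≤ lv V x then V.res (x.coeff 0) else 0
    v_top := lv_top V
    v_mul := lv_mul V
    v_add := lv_add V
    v_surj := by
      intro c
      obtain ⟨n, g, rfl⟩ : ∃ n g, c = toLex (n, g) := ⟨(ofLex c).1, (ofLex c).2, rfl⟩
      obtain ⟨a, ha⟩ := V.v_surj g
      have ha0 : a ≠ 0 := by
        intro h
        rw [h, V.v_zero] at ha
        exact WithTop.top_ne_coe ha
      refine ⟨single n a, ?_⟩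
      unfold lv
      rw [leadingCoeff_of_single, order_single ha0, ha, WithTop.map_coe]
    res_one := by
      have h1 : 0 ≤ lv V (1 : LaurentSeries V.K) := by
        rw [lv_nonneg_iff]
        refine ⟨fun i hi => ?_, ?_⟩
        · rw [coeff_one, if_neg (ne_of_lt hi)]
        · rw [coeff_one, if_pos rfl, V.v_one]
      simp only [h1, if_true]
      rw [coeff_one, if_pos rfl, V.res_one]
    res_add := by
      intro x y hx hy
      have hxy : 0 ≤ lv V (x + y) := le_trans (le_min hx hy) (lv_add V x y)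
      simp only [hx, hy, hxy, if_true]
      rw [lv_nonneg_iff] at hx hy
      rw [coeff_add]
      exact V.res_add _ _ hx.2 hy.2
    res_mul := by
      intro x y hx hy
      have hxy : 0 ≤ lv V (x * y) := by
        rw [lv_mul]; exact add_nonneg hx hy
      simp only [hx, hy, hxy, if_true]
      rw [lv_nonneg_iff] at hx hy
      rw [coeff_zero_mul' x y hx.1 hy.1]
      exact V.res_mul _ _ hx.2 hy.2
    res_surj := by
      intro a
      obtain ⟨x, hx, rfl⟩ := V.res_surj a
      have h1 : 0 ≤ lv V (single 0 x : LaurentSeries V.K) := by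
        rw [lv_nonneg_iff]
        refine ⟨fun i hi => ?_, ?_⟩
        · rw [coeff_single_of_ne (ne_of_lt hi)]
        · rw [coeff_single_same]; exact hx
      refine ⟨single 0 x, h1, ?_⟩
      simp only [h1, if_true, coeff_single_same]
    res_ker := by
      intro x hx
      simp only [hx, if_true]
      rw [lv_nonneg_iff] at hx
      rw [V.res_ker _ hx.2, lv_pos_iff]
      exact ⟨fun h => ⟨hx.1, h⟩, fun h => h.2⟩
    res_out := by
      intro x hx
      simp only [not_le.2 hx, if_false] }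

theorem Lau_nonneg_iff (x : LaurentSeries V.K) :
    0 ≤ (Lau V).v x ↔ (∀ i < 0, x.coeff i = 0) ∧ 0 ≤ V.v (x.coeff 0) := lv_nonneg_iff V x

theorem Lau_pos_iff (x : LaurentSeries V.K) :
    0 < (Lau V).v x ↔ (∀ i < 0, x.coeff i = 0) ∧ 0 < V.v (x.coeff 0) := lv_pos_iff V x

end Q209.AKE
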