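import Mathlib
import Pool.Agent.Q209.AKE.Lau2

/-! # The composite valuation on Laurent series is henselian -/

namespace Q209.AKE

open HahnSeries

theorem Triv_v {k : Type} [Field k] (x : k) : (Triv k).v x = 0 ∨ (Triv k).v x = ⊤ := by
  by_cases h : x = 0
  · right
    exact ((Triv k).v_top x).2 h
  · left
    unfold Triv
    exact if_neg h

theorem Triv_pos {k : Type} [Field k] (x : (Triv k).K) (h : 0 < (Triv k).v x) : x = 0 := by
  rcases Triv_v (k := k) x with h1 | h1
  · rw [h1] at h
    exact absurd h (lt_irrefl _)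
  · exact ((Triv k).v_top x).1 h1

theorem Triv_henselian (k : Type) [Field k] : (Triv k).Henselian := by
  intro f _ _ a ha h1 _
  refine ⟨a, ha, Triv_pos _ h1, ?_⟩
  rw [sub_self, (Triv k).v_zero]
  exact WithTop.coe_lt_top _

theorem Lau_henselian (V : ValField) (hV : V.Henselian) : (Lau V).Henselian := by
  intro f hm hf a ha h1 h2
  have hf' : ∀ i, (∀ j < 0, (HahnSeries.coeff (f.coeff i : LaurentSeries V.K) j) = 0) ∧
      0 ≤ V.v (HahnSeries.coeff (f.coeff i : LaurentSeries V.K) 0) :=
    fun i => (Lau_nonneg_iff V (f.coeff i)).1 (hf i)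
  let ι : PowerSeries V.K →+* LaurentSeries V.K := ofPowerSeries ℤ V.K
  have hι : Function.Injective ι := ofPowerSeries_injective
  change Polynomial (LaurentSeries V.K) at f
  change LaurentSeries V.K at a
  -- lift the polynomial
  have hlift : f ∈ Polynomial.lifts ι := by
    rw [Polynomial.lifts_iff_coeff_lifts]
    intro i
    obtain ⟨X, hX⟩ := exists_ofPS (f.coeff i) (hf' i).1
    exact ⟨X, hX⟩
  obtain ⟨g, hg, -, hgm⟩ := Polynomial.lifts_and_natDegree_eq_and_monic hlift hm
  obtain ⟨A, hA⟩ := exists_ofPS a ((Lau_nonneg_iff V a).1 ha).1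
  have hav := ((Lau_nonneg_iff V a).1 ha).2
  change ι A = a at hA
  let c : PowerSeries V.K →+* V.K := PowerSeries.constantCoeff
  have hc : ∀ X, (ι X).coeff 0 = c X := coeff_zero_ofPS
  -- the reduced polynomial
  have hgc : ∀ i, 0 ≤ V.v ((g.map c).coeff i) := by
    intro i
    rw [Polynomial.coeff_map, ← hc]
    have h3 : ι (g.coeff i) = f.coeff i := by rw [← hg, Polynomial.coeff_map]
    rw [h3]
    exact (hf' i).2
  have hev : ∀ X : PowerSeries V.K, f.eval (ι X) = ι (g.eval X) := by
    intro X
    rw [← hg, Polynomial.eval_map_apply]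
  have hev' : ∀ X : PowerSeries V.K, f.derivative.eval (ι X) = ι (g.derivative.eval X) := by
    intro X
    rw [← hg, Polynomial.derivative_map, Polynomial.eval_map_apply]
  have hcv : ∀ X : PowerSeries V.K, c (g.eval X) = (g.map c).eval (c X) := by
    intro X
    rw [Polynomial.eval_map_apply]
  have hcv' : ∀ X : PowerSeries V.K, c (g.derivative.eval X) = (g.map c).derivative.eval (c X) := by
    intro X
    rw [Polynomial.derivative_map, Polynomial.eval_map_apply]
  have hA0 : 0 ≤ V.v (c A) := by rw [← hc, hA]; exact hav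
  have h1' : 0 < V.v ((g.map c).eval (c A)) := by
    rw [← hcv, ← hc, ← hev, hA]
    exact ((Lau_pos_iff V (f.eval a)).1 h1).2
  have h2' : V.v ((g.map c).derivative.eval (c A)) = 0 := by
    rw [← hcv', ← hc, ← hev', hA]
    have h3 := (Lau_nonneg_iff V (f.derivative.eval a)).1 (le_of_eq h2.symm)
    refine le_antisymm ?_ h3.2
    by_contra h4
    have h5 := (Lau_pos_iff V (f.derivative.eval a)).2 ⟨h3.1, not_le.1 h4⟩
    exact (ne_of_gt h5) h2
  obtain ⟨b, hb0, hb, hba⟩ := hV (g.map c) (hgm.map c) hgc (c A) hA0 h1' h2'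
  -- the derivative does not vanish at `b`
  have hdb : (g.map c).derivative.eval b ≠ 0 := by
    intro h0
    have h3 := V.v_eval_sub (g.map c).derivative (V.v_coeff_derivative _ hgc) hb0 hA0 hba
    rw [h0, zero_sub, V.v_neg, h2'] at h3
    exact lt_irrefl _ h3
  -- Hensel for power series
  have hadic : IsAdicComplete (Ideal.span {(PowerSeries.X : PowerSeries V.K)}) (PowerSeries V.K) :=
    inferInstance
  have hmem : ∀ X : PowerSeries V.K,
      X ∈ Ideal.span {(PowerSeries.X : PowerSeries V.K)} ↔ c X = 0 := by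
    intro X
    rw [Ideal.mem_span_singleton, PowerSeries.X_dvd_iff]
  have hroot := (IsAdicComplete.henselianRing (PowerSeries V.K)
    (Ideal.span {(PowerSeries.X : PowerSeries V.K)})).is_henselian g hgm (PowerSeries.C b) (by
      rw [hmem, hcv]
      change Polynomial.eval (PowerSeries.constantCoeff (PowerSeries.C b)) _ = 0
      rw [PowerSeries.constantCoeff_C]
      exact hb) (by
      have h3 : IsUnit (g.derivative.eval (PowerSeries.C b)) := by
        rw [PowerSeries.isUnit_iff_constantCoeff]
        change IsUnit (c _)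
        rw [hcv']
        change IsUnit (Polynomial.eval (PowerSeries.constantCoeff (PowerSeries.C b)) _)
        rw [PowerSeries.constantCoeff_C]
        exact isUnit_iff_ne_zero.2 hdb
      exact h3.map _)
  obtain ⟨B, hB, hBb⟩ := hroot
  have hcB : c B = b := by
    rw [hmem, map_sub, sub_eq_zero] at hBb
    rw [hBb]
    exact PowerSeries.constantCoeff_C b
  refine ⟨ι B, ?_, ?_, ?_⟩
  · refine (Lau_nonneg_iff V (ι B)).2 ⟨fun i hi => coeff_neg_ofPS B i hi, ?_⟩
    rw [hc, hcB]
    exact hb0
  · have h3 : f.eval (ι B) = 0 := by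
      rw [hev, hB.eq_zero, map_zero]
    exact h3
  · have h3 : ι B - a = ι (B - A) := by rw [map_sub, hA]
    have h4 : 0 < (Lau V).v (ι (B - A)) := by
      refine (Lau_pos_iff V (ι (B - A))).2 ⟨fun i hi => coeff_neg_ofPS _ i hi, ?_⟩
      rw [hc, map_sub, hcB]
      exact hba
    rw [← h3] at h4
    exact h4

end Q209.AKE
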