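import Mathlib
import Pool.Agent.Q209.AKE.Hens

/-! # The two fields and the sentence -/

namespace Q209.AKE

open HahnSeries

theorem lv_single (V : ValField) (n : ℤ) {a : V.K} {g : V.G} (ha : V.v a = g) :
    (Lau V).v (single n a : LaurentSeries V.K) =
      ((toLex (n, g) : ℤ ×ₗ V.G) : WithTop (ℤ ×ₗ V.G)) := by
  have ha0 : a ≠ 0 := by
    intro h
    rw [h, V.v_zero] at ha
    exact WithTop.top_ne_coe ha
  change lv V _ = _
  unfold lv
  rw [leadingCoeff_of_single, order_single ha0, ha, WithTop.map_coe]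

theorem Lau_uniformizer (V : ValField) (p : V.K) (g : V.G) (hg : V.v p = g)
    (hp : V.IsUniformizer p) : (Lau V).IsUniformizer (single 0 p : LaurentSeries V.K) := by
  refine ⟨?_, fun x hx => ?_⟩
  · rw [Lau_pos_iff]
    refine ⟨fun i hi => ?_, ?_⟩
    · rw [coeff_single_of_ne (ne_of_lt hi)]
    · rw [coeff_single_same]; exact hp.1
  · rw [lv_single V 0 hg]
    obtain ⟨h2, h3⟩ := (Lau_pos_iff V x).1 hx
    refine (le_lv_iff V 0 g x).2 ⟨h2, ?_⟩
    rw [← hg]
    exact hp.2 _ h3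

/-- `k((t))` with the `t`-adic valuation. -/
noncomputable abbrev LS (k : Type) [Field k] : ValField := Lau (Triv k)

/-- The element `t` of `k((t))`. -/
noncomputable def tt (k : Type) [Field k] : (LS k).K := (single 1 1 : LaurentSeries k)

theorem v_tt (k : Type) [Field k] :
    (LS k).v (tt k) = ((toLex ((1 : ℤ), (0 : (Triv k).G)) : ℤ ×ₗ (Triv k).G) :
      WithTop (ℤ ×ₗ (Triv k).G)) :=
  lv_single (Triv k) 1 (Triv k).v_one

theorem LS_pos_coeff {k : Type} [Field k] (x : (LS k).K) (hx : 0 < (LS k).v x) :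
    ∀ i < 1, HahnSeries.coeff (x : LaurentSeries k) i = 0 := by
  intro i hi
  obtain ⟨h1, h2⟩ := (Lau_pos_iff (Triv k) x).1 hx
  rcases lt_or_eq_of_le (Int.lt_add_one_iff.1 hi : i ≤ 0) with h | h
  · exact h1 i h
  · subst h
    exact Triv_pos _ h2

theorem uniformizer_tt (k : Type) [Field k] : (LS k).IsUniformizer (tt k) := by
  refine ⟨?_, fun x hx => ?_⟩
  · rw [v_tt]
    refine WithTop.coe_lt_coe.2 ?_
    change toLex ((0 : ℤ), (0 : (Triv k).G)) < toLex ((1 : ℤ), (0 : (Triv k).G))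
    rw [Prod.Lex.toLex_lt_toLex]
    exact Or.inl one_pos
  · rw [v_tt]
    refine (le_lv_iff (Triv k) 1 0 x).2 ⟨LS_pos_coeff x hx, ?_⟩
    rcases Triv_v (k := k) (HahnSeries.coeff (x : LaurentSeries k) 1) with h | h
    · exact le_of_eq h.symm
    · exact le_top.trans_eq h.symm

/-- `k((s))((t))` with the valuation with values in `ℤ ×ₗ ℤ`. -/
noncomputable abbrev LS2 (k : Type) [Field k] : ValField := Lau (LS k)

/-- The element `s` of `k((s))((t))`. -/
noncomputable def ss (k : Type) [Field k] : (LS2 k).K :=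
  (single 0 (tt k) : LaurentSeries (LS k).K)

theorem v_ss (k : Type) [Field k] :
    (LS2 k).v (ss k) = ((toLex ((0 : ℤ), (toLex ((1 : ℤ), (0 : (Triv k).G)) : (LS k).G)) :
      ℤ ×ₗ (LS k).G) : WithTop (ℤ ×ₗ (LS k).G)) :=
  lv_single (LS k) 0 (v_tt k)

theorem uniformizer_ss (k : Type) [Field k] : (LS2 k).IsUniformizer (ss k) :=
  Lau_uniformizer (LS k) (tt k) _ (v_tt k) (uniformizer_tt k)

theorem LS_henselian (k : Type) [Field k] : (LS k).Henselian :=
  Lau_henselian _ (Triv_henselian k)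

theorem LS2_henselian (k : Type) [Field k] : (LS2 k).Henselian :=
  Lau_henselian _ (LS_henselian k)

theorem charZero_Lau (V : ValField) (h : CharZero V.K) : CharZero (Lau V).K := by
  have : Function.Injective (HahnSeries.C : V.K →+* LaurentSeries V.K) := HahnSeries.C_injective
  exact charZero_of_injective_ringHom this

theorem LS_char (k : Type) [Field k] [h : CharZero k] : (LS k).EquicharZero := by
  have h1 : CharZero (LS k).K := charZero_Lau (Triv k) h
  have h2 : CharZero (LS k).k := h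
  exact ⟨ringChar.eq_zero, ringChar.eq_zero⟩

theorem LS2_char (k : Type) [Field k] [h : CharZero k] : (LS2 k).EquicharZero := by
  have h1 : CharZero (LS k).K := charZero_Lau (Triv k) h
  have h2 : CharZero (LS2 k).K := charZero_Lau (LS k) h1
  have h3 : CharZero (LS2 k).k := h
  exact ⟨ringChar.eq_zero, ringChar.eq_zero⟩

theorem Lau_nontriv (V : ValField) : (Lau V).NontrivVal := by
  refine ⟨(toLex ((1 : ℤ), (0 : V.G)) : ℤ ×ₗ V.G), ?_⟩
  intro h
  have h2 : (1 : ℤ) = 0 := congrArg (fun z : ℤ ×ₗ V.G => (ofLex z).1) h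
  exact one_ne_zero h2

theorem LS_zgroup (k : Type) [Field k] : IsZGroup (LS k).G := by
  refine ⟨(toLex ((1 : ℤ), (PUnit.unit : PUnit)) : ℤ ×ₗ PUnit), ?_, ?_, ?_⟩
  · change toLex ((0 : ℤ), (PUnit.unit : PUnit)) < toLex ((1 : ℤ), (PUnit.unit : PUnit))
    rw [Prod.Lex.toLex_lt_toLex]
    exact Or.inl one_pos
  · intro g hg
    obtain ⟨n, u, rfl⟩ : ∃ (n : ℤ) (u : PUnit), g = (toLex (n, u) : ℤ ×ₗ PUnit) :=
      ⟨(ofLex g).1, (ofLex g).2, rfl⟩
    change toLex ((0 : ℤ), (PUnit.unit : PUnit)) < toLex (n, u) at hg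
    change toLex ((1 : ℤ), (PUnit.unit : PUnit)) ≤ toLex (n, u)
    rw [Prod.Lex.toLex_lt_toLex] at hg
    rw [Prod.Lex.toLex_le_toLex]
    rcases hg with h | ⟨_, h⟩
    · have h' : (1 : ℤ) ≤ n := h
      rcases lt_or_eq_of_le h' with h2 | h2
      · exact Or.inl h2
      · exact Or.inr ⟨h2, le_refl _⟩
    · exact absurd h (lt_irrefl _)
  · intro n hn g
    obtain ⟨m, u, rfl⟩ : ∃ (m : ℤ) (u : PUnit), g = (toLex (m, u) : ℤ ×ₗ PUnit) :=
      ⟨(ofLex g).1, (ofLex g).2, rfl⟩
    have hn0 : (0 : ℤ) < n := by exact_mod_cast hn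
    refine ⟨(toLex (m / n, (PUnit.unit : PUnit)) : ℤ ×ₗ PUnit), (m % n).toNat, ?_, ?_⟩
    · have h1 := Int.emod_lt_of_pos m hn0
      have h2 := Int.emod_nonneg m hn0.ne'
      zify
      rw [Int.toNat_of_nonneg h2]
      exact h1
    · have h2 := Int.emod_nonneg m hn0.ne'
      have h3 : m = n • (m / n) + (m % n).toNat • (1 : ℤ) := by
        rw [nsmul_eq_mul, nsmul_eq_mul, mul_one, Int.toNat_of_nonneg h2]
        exact (Int.mul_ediv_add_emod m n).symm
      refine Prod.ext ?_ rfl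
      exact h3

/-- `∃ γ ∀ δ (γ ≠ ∞ ∧ γ ≠ δ + δ ∧ γ ≠ δ + δ + v(ϖ))`, over the value-group sort. -/
def sigma : Pnx 0 0 0 :=
  .exG (.allG (.qf (.and (.not (.eqG (.var 1) .infty))
    (.and (.not (.eqG (.var 1) (.add (.var 0) (.var 0))))
      (.not (.eqG (.var 1) (.add (.add (.var 0) (.var 0)) (.val .pi))))))))

theorem sigma_pattern (n : ℕ) (hn : 3 ≤ n) : HasPattern (stdPattern n) sigma := by
  induction n, hn using Nat.le_induction with
  | base => exact .exG _ _ (.next _ _ _ (.allG _ _ (.qf _ _)))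
  | succ n _ ih => exact .next _ _ _ ih

theorem sigma_holds_iff (M : ValField) (p : M.K) :
    sigma.Holds M p Fin.elim0 Fin.elim0 Fin.elim0 ↔
      ∃ c : WithTop M.G, ∀ d : WithTop M.G, c ≠ ⊤ ∧ c ≠ d + d ∧ c ≠ d + d + M.v p := Iff.rfl

/-- An element of the value group of `Lau V`. -/
def mkG (V : ValField) (n : ℤ) (g : V.G) : (Lau V).G := (toLex (n, g) : ℤ ×ₗ V.G)

/-- The first coordinate of an element of the value group of `Lau V`. -/
def fstG (V : ValField) (x : (Lau V).G) : ℤ := (ofLex (x : ℤ ×ₗ V.G)).1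

theorem fstG_mk (V : ValField) (n : ℤ) (g : V.G) : fstG V (mkG V n g) = n := rfl

theorem fstG_add (V : ValField) (x y : (Lau V).G) : fstG V (x + y) = fstG V x + fstG V y := rfl

theorem v_ss' (k : Type) [Field k] :
    (LS2 k).v (ss k) = ((mkG (LS k) 0 (mkG (Triv k) 1 0) : (LS2 k).G) : WithTop (LS2 k).G) :=
  v_ss k

theorem v_tt' (k : Type) [Field k] :
    (LS k).v (tt k) = ((mkG (Triv k) 1 0 : (LS k).G) : WithTop (LS k).G) :=
  v_tt k

theorem sigma_LS2 (k : Type) [Field k] :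
    sigma.Holds (LS2 k) (ss k) Fin.elim0 Fin.elim0 Fin.elim0 := by
  rw [sigma_holds_iff]
  refine ⟨((mkG (LS k) 1 0 : (LS2 k).G) : WithTop (LS2 k).G),
    fun d => ⟨WithTop.coe_ne_top, ?_, ?_⟩⟩
  · intro h
    induction d using WithTop.recTopCoe with
    | top => rw [top_add] at h; exact WithTop.coe_ne_top h
    | coe d =>
      rw [← WithTop.coe_add, WithTop.coe_inj] at h
      have h2 := congrArg (fstG (LS k)) h
      rw [fstG_mk, fstG_add] at h2
      omega
  · intro h
    induction d using WithTop.recTopCoe with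
    | top => rw [top_add, top_add] at h; exact WithTop.coe_ne_top h
    | coe d =>
      rw [v_ss', ← WithTop.coe_add, ← WithTop.coe_add, WithTop.coe_inj] at h
      have h2 := congrArg (fstG (LS k)) h
      rw [fstG_mk, fstG_add, fstG_add, fstG_mk] at h2
      omega

theorem extG {k : Type} [Field k] {x y : (LS k).G} (h : fstG (Triv k) x = fstG (Triv k) y) :
    x = y :=
  Prod.ext h rfl

theorem not_sigma_LS (k : Type) [Field k] :
    ¬ sigma.Holds (LS k) (tt k) Fin.elim0 Fin.elim0 Fin.elim0 := by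
  rw [sigma_holds_iff]
  rintro ⟨c, hc⟩
  obtain ⟨g, rfl⟩ := WithTop.ne_top_iff_exists.1 (hc ⊤).1
  rcases Int.even_or_odd (fstG (Triv k) g) with ⟨d, hd⟩ | ⟨d, hd⟩
  · refine (hc ((mkG (Triv k) d 0 : (LS k).G) : WithTop (LS k).G)).2.1 ?_
    rw [← WithTop.coe_add, WithTop.coe_inj]
    apply extG
    rw [fstG_add, fstG_mk, hd]
  · refine (hc ((mkG (Triv k) d 0 : (LS k).G) : WithTop (LS k).G)).2.2 ?_
    rw [v_tt', ← WithTop.coe_add, ← WithTop.coe_add, WithTop.coe_inj]
    apply extG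
    rw [fstG_add, fstG_add, fstG_mk, fstG_mk, hd]
    omega

theorem LS_G_int (k : Type) [Field k] : Nonempty ((LS k).G ≃+o ℤ) := by
  refine ⟨{ toFun := fstG (Triv k), invFun := fun n => mkG (Triv k) n 0,
            left_inv := fun x => extG rfl, right_inv := fun n => rfl,
            map_add' := fun x y => rfl, map_le_map_iff' := ?_ }⟩
  intro x y
  change fstG (Triv k) x ≤ fstG (Triv k) y ↔ x ≤ y
  constructor
  · intro h
    rcases lt_or_eq_of_le h with h2 | h2
    · exact (Prod.Lex.toLex_le_toLex (x := (ofLex x : ℤ × PUnit)) (y := ofLex y)).2 (Or.inl h2)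
    · exact le_of_eq (extG h2)
  · intro h
    rcases (Prod.Lex.toLex_le_toLex (x := (ofLex x : ℤ × PUnit)) (y := ofLex y)).1 h with h2 | h2
    · exact h2.le
    · exact h2.1.le

end Q209.AKE
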